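import Pool.Agent.X172.GR.Stm

set_option autoImplicit false

namespace Pool.Agent.X284.GR

open Pool.Agent.X172.GR

variable {n : ℕ} {T : ℕ → Fin 6}

lemma rd_append (i : ℕ) (x y : List Ltr) :
    Rd T i (x ++ y) ↔ Rd T i x ∧ Rd T (i + x.length) y := by
  induction x generalizing i with
  | nil => simp [Rd]
  | cons a x ih =>
    simp only [List.cons_append, Rd, List.length_cons, ih, and_assoc]
    have : i + 1 + x.length = i + (x.length + 1) := by omega
    rw [this]

lemma per_mod (h : Ty n T) (i : ℕ) : T i = T (i % n) := by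
  have h1 : ∀ k j, T (j + n * k) = T j := by
    intro k
    induction k with
    | zero => intro j; simp
    | succ k ih => intro j; rw [Nat.mul_succ, ← Nat.add_assoc, h.per, ih]
  conv_lhs => rw [← Nat.mod_add_div i n]
  exact h1 _ _

lemma rd_congr (h : Ty n T) {i j : ℕ} (hij : i % n = j % n) (x : List Ltr) :
    Rd T i x ↔ Rd T j x := by
  induction x generalizing i j with
  | nil => simp [Rd]
  | cons a x ih =>
    simp only [Rd]
    have h1 : T i = T j := by rw [per_mod h i, per_mod h j, hij]
    have h2 : (i + 1) % n = (j + 1) % n := by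
      rw [Nat.add_mod, hij, ← Nat.add_mod]
    rw [h1, ih h2]

lemma rd_get (i : ℕ) (x : List Ltr) (hx : Rd T i x) (t : ℕ) (ht : t < x.length) :
    (x[t]).1 = T (i + t) := by
  induction x generalizing i t with
  | nil => simp at ht
  | cons a x ih =>
    obtain ⟨h1, h2⟩ := hx
    cases t with
    | zero => simpa using h1
    | succ t =>
      have := ih (i + 1) h2 t (by simpa using ht)
      simp only [List.getElem_cons_succ]
      rw [this]
      congr 1
      omega

lemma uniq (hn : 4 ≤ n) (h : Ty n T) {i j : ℕ} (x : List Ltr) (hi : Rd T i x) (hj : Rd T j x)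
    (hx : n ≤ x.length) : i % n = j % n := by
  have hlt : i % n < n := Nat.mod_lt _ (by omega)
  obtain ⟨t, ht⟩ : ∃ t, t = n - 1 - i % n := ⟨_, rfl⟩
  have htn : t < n := by omega
  have h1 := rd_get i x hi t (by omega)
  have h2 := rd_get j x hj t (by omega)
  have h3 : n ∣ i + t + 1 := by
    have h0 : i + t + 1 = n * (i / n) + n := by
      have := Nat.mod_add_div i n
      omega
    rw [h0]
    exact Dvd.intro (i / n + 1) (by ring)
  have h4 : T (i + t) = 4 := (h.hash _).2 h3
  have h5 : T (j + t) = 4 := by rw [← h2, h1, h4]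
  have h6 := (h.hash _).1 h5
  have h7 : (i + (t + 1)) ≡ (j + (t + 1)) [MOD n] :=
    (Nat.modEq_zero_iff_dvd.2 h3).trans (Nat.modEq_zero_iff_dvd.2 h6).symm
  exact Nat.ModEq.add_right_cancel' (t + 1) h7

/-- the shortened word -/
def sh (n r : ℕ) (v : List Ltr) : List Ltr := v.take r ++ v.drop (v.length - n)

lemma rd_sh (h : Ty n T) {i r : ℕ} (v : List Ltr) (hv : Rd T i v) (hr : r ≤ v.length)
    (hn : n ≤ v.length) (hm : r % n = v.length % n) : Rd T i (sh n r v) := by
  unfold sh
  have h1 : Rd T i (v.take r ++ v.drop r) := by rw [List.take_append_drop]; exact hv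
  have h2 : Rd T i (v.take (v.length - n) ++ v.drop (v.length - n)) := by
    rw [List.take_append_drop]; exact hv
  rw [rd_append] at h1 h2 ⊢
  refine ⟨h1.1, ?_⟩
  have h3 : (v.take r).length = r := by rw [List.length_take]; omega
  have h4 : (v.take (v.length - n)).length = v.length - n := by rw [List.length_take]; omega
  rw [h3]
  rw [h4] at h2
  refine (rd_congr h ?_ _).1 h2.2
  have h5 : (v.length - n) ≡ r [MOD n] := by
    have h6 : v.length - n + n ≡ r + n [MOD n] := by
      rw [Nat.sub_add_cancel hn]
      show v.length % n = (r + n) % n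
      rw [Nat.add_mod_right, hm]
    exact Nat.ModEq.add_right_cancel' n h6
  exact Nat.ModEq.add_left i h5

lemma sh_len {r : ℕ} (v : List Ltr) (hr : r ≤ v.length) (hn : n ≤ v.length) :
    (sh n r v).length = r + n := by
  unfold sh
  rw [List.length_append, List.length_take, List.length_drop]
  omega

lemma split (u : List Ltr) (hu : ¬ Readable T u) :
    ∃ a y v, u = y ++ a :: v ∧ Readable T v ∧ ¬ Readable T (a :: v) := by
  induction u with
  | nil => exact absurd ⟨0, trivial⟩ hu
  | cons b u ih =>
    by_cases h : Readable T u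
    · exact ⟨b, [], u, rfl, h, hu⟩
    · obtain ⟨a, y, v, h1, h2, h3⟩ := ih h
      exact ⟨a, b :: y, v, by rw [h1]; rfl, h2, h3⟩

theorem t_FIN : S_FIN := by
  intro n T hn hT u hu
  by_cases h5 : u.length ≤ 5 * n
  · exact ⟨u, hu, h5, Or.inl rfl, Or.inl rfl⟩
  push Not at h5
  have hmod : ∀ k : ℕ, k % n < n := fun k => Nat.mod_lt _ (by omega)
  by_cases hR : Readable T u
  · obtain ⟨i, hi⟩ := hR
    have hm : (n + u.length % n) % n = u.length % n := by
      rw [Nat.add_mod_left, Nat.mod_mod]
    have hle : n + u.length % n ≤ u.length := by have := hmod u.length; omega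
    have hl := sh_len (n := n) (r := n + u.length % n) u hle (by omega)
    have hrd := rd_sh hT u hi hle (by omega) hm
    refine ⟨sh n (n + u.length % n) u, ?_, ?_, ?_, ?_⟩
    · intro h0
      rw [h0] at hl
      simp only [List.length_nil] at hl
      omega
    · rw [hl]; have := hmod u.length; omega
    · right
      refine ⟨u.take n, List.take_prefix _ _, ?_, Or.inr ?_⟩
      · unfold sh
        refine List.IsPrefix.trans ?_ (List.prefix_append _ _)
        have : u.take n = (u.take (n + u.length % n)).take n := by
          rw [List.take_take, min_eq_left (by omega)]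
        rw [this]
        exact List.take_prefix _ _
      · rw [List.length_take]; omega
    · right; right
      refine ⟨none, u.length % n, u.drop (u.length - n), u.drop (u.length - n), ?_, ?_, Or.inl rfl⟩
      · exact ⟨u, ⟨i, hi⟩, by omega, rfl, List.drop_suffix _ _, by rw [List.length_drop]; omega,
          Or.inl ⟨rfl, rfl⟩⟩
      · refine ⟨sh n (n + u.length % n) u, ⟨i, hrd⟩, by omega, ?_, List.suffix_append _ _,
          by rw [List.length_drop]; omega, Or.inl ⟨rfl, rfl⟩⟩
        rw [hl, Nat.add_mod_right, hm]
  · obtain ⟨a, y, v, h1, ⟨j, hj⟩, h3⟩ := split u hR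
    have htake : (u.take n).length = n := by rw [List.length_take]; omega
    by_cases hv : v.length < 2 * n
    · refine ⟨u.take n ++ a :: v, by simp, ?_, ?_, ?_⟩
      · rw [List.length_append, htake, List.length_cons]; omega
      · exact Or.inr ⟨u.take n, List.take_prefix _ _, List.prefix_append _ _, Or.inr htake⟩
      · refine Or.inr (Or.inl ⟨a :: v, ?_, List.suffix_append _ _, h3⟩)
        rw [h1]; exact List.suffix_append _ _
    · push Not at hv
      have hle : v.length % n ≤ v.length := Nat.mod_le _ _
      have hl := sh_len (n := n) (r := v.length % n) v hle (by omega)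
      have hrd := rd_sh hT v hj hle (by omega) (Nat.mod_mod _ _)
      refine ⟨u.take n ++ a :: sh n (v.length % n) v, by simp, ?_, ?_, ?_⟩
      · rw [List.length_append, htake, List.length_cons, hl]
        have := hmod v.length
        omega
      · exact Or.inr ⟨u.take n, List.take_prefix _ _, List.prefix_append _ _, Or.inr htake⟩
      · right; right
        refine ⟨some a, v.length % n, v.drop (v.length - n), v.drop (v.length - n), ?_, ?_,
          Or.inl rfl⟩
        · exact ⟨v, ⟨j, hj⟩, by omega, rfl, List.drop_suffix _ _, by rw [List.length_drop]; omega,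
            Or.inr ⟨a, y, rfl, h1, h3⟩⟩
        · refine ⟨sh n (v.length % n) v, ⟨j, hrd⟩, by omega, ?_, List.suffix_append _ _,
            by rw [List.length_drop]; omega, Or.inr ⟨a, u.take n, rfl, rfl, ?_⟩⟩
          · rw [hl, Nat.add_mod_right, Nat.mod_mod]
          · rintro ⟨i, hi1, hi2⟩
            apply h3
            have h8 : (i + 1) % n = j % n := uniq hn hT _ hi2 hrd (by omega)
            exact ⟨i, hi1, (rd_congr hT h8 v).2 hj⟩

end Pool.Agent.X284.GR
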